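import Pool.Agent.H99Thin.Main

/-!
# Thin spanning trees in multigraphs of bounded pathwidth

A `k`-edge connected multigraph of pathwidth at most `w` has a spanning tree of thinness
`16 w² (w + 1)² / k`; so it has a `1/2`-thin spanning tree if `k ≥ 32 w² (w + 1)²`.
-/

namespace Pool.Agent.Attic.MP_e3de44.BoundedPathwidth

open Finset Pool.Agent.H99Thin

/-- A loopless multigraph on `V`: `mult u v` is the number of parallel edges joining `u` and `v`. -/
structure MGraph (V : Type) where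
  mult : V → V → ℕ
  symm : ∀ u v, mult u v = mult v u
  loopless : ∀ v, mult v v = 0

variable {V : Type} [Fintype V] [DecidableEq V]

/-- the number of edges with exactly one end in `A` -/
def MGraph.cut (G : MGraph V) (A : Finset V) : ℕ := ∑ u ∈ A, ∑ v ∈ Aᶜ, G.mult u v

/-- every cut has at least `k` edges -/
def MGraph.EdgeConnected (G : MGraph V) (k : ℕ) : Prop :=
  ∀ A : Finset V, A.Nonempty → A ≠ univ → k ≤ G.cut A

/-- the pathwidth is at most `w`: there is a path decomposition into bags `X 0, ..., X (N - 1)` of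
at most `w + 1` vertices each -/
def MGraph.PathwidthLE (G : MGraph V) (w : ℕ) : Prop :=
  ∃ (N : ℕ) (X : Fin N → Finset V),
    (∀ v, ∃ i, v ∈ X i) ∧
    (∀ u v, 0 < G.mult u v → ∃ i, u ∈ X i ∧ v ∈ X i) ∧
    (∀ v i j k, i ≤ j → j ≤ k → v ∈ X i → v ∈ X k → v ∈ X j) ∧
    ∀ i, (X i).card ≤ w + 1

/-- `T` is a spanning tree of `G` (one of the parallel edges `uv` is in the tree when
`T.Adj u v`) -/
def MGraph.IsSpanningTree (G : MGraph V) (T : SimpleGraph V) : Prop :=
  T.IsTree ∧ ∀ u v, T.Adj u v → 0 < G.mult u v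

/-- the number of edges of `T` with exactly one end in `A` -/
noncomputable def treeCut (T : SimpleGraph V) (A : Finset V) : ℕ :=
  Set.ncard {p : V × V | p.1 ∈ A ∧ p.2 ∉ A ∧ T.Adj p.1 p.2}

/-- `T` is `α`-thin with respect to `G` -/
def MGraph.Thin (G : MGraph V) (T : SimpleGraph V) (α : ℝ) : Prop :=
  ∀ A : Finset V, A.Nonempty → A ≠ univ → (treeCut T A : ℝ) ≤ α * G.cut A

theorem result [Nonempty V] (G : MGraph V) (k w : ℕ) (hk : 0 < k) (hconn : G.EdgeConnected k)
    (hpw : G.PathwidthLE w) :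
    ∃ T : SimpleGraph V, G.IsSpanningTree T ∧
      G.Thin T (16 * (w : ℝ) ^ 2 * ((w : ℝ) + 1) ^ 2 / k) ∧
      (32 * w ^ 2 * (w + 1) ^ 2 ≤ k → G.Thin T (1 / 2)) := by
  classical
  obtain ⟨N, X, h1, h2, h3, h4⟩ := hpw
  -- the bags of `v`
  let I : V → Finset (Fin N) := fun v => univ.filter fun i => v ∈ X i
  have hmemI : ∀ v i, i ∈ I v ↔ v ∈ X i := fun v i => by simp [I]
  have hI : ∀ v, (I v).Nonempty := fun v => by
    obtain ⟨i, hi⟩ := h1 v
    exact ⟨i, (hmemI v i).2 hi⟩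
  let l : V → ℕ := fun v => ((I v).min' (hI v) : ℕ)
  let r : V → ℕ := fun v => ((I v).max' (hI v) : ℕ)
  let m : V → V → ℝ := fun u v => (G.mult u v : ℝ)
  have hl : ∀ v i, v ∈ X i → l v ≤ (i : ℕ) := fun v i hi => (I v).min'_le i ((hmemI v i).2 hi)
  have hr : ∀ v i, v ∈ X i → (i : ℕ) ≤ r v := fun v i hi => (I v).le_max' i ((hmemI v i).2 hi)
  have hR : Rep m l r w := by
    refine ⟨fun u v => Nat.cast_nonneg _, fun u v => ?_, fun v => ?_, fun u v huv => ?_, fun t => ?_⟩
    · show (G.mult u v : ℝ) = G.mult v u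
      rw [G.symm]
    · obtain ⟨i, hi⟩ := h1 v
      exact (hl v i hi).trans (hr v i hi)
    · have huv' : 0 < G.mult u v := by
        have : (0 : ℝ) < (G.mult u v : ℝ) := huv
        exact_mod_cast this
      obtain ⟨i, hi, hi'⟩ := h2 u v huv'
      exact (hl u i hi).trans (hr v i hi')
    · rcases (al l r t).eq_empty_or_nonempty with he | ⟨v0, hv0⟩
      · rw [he, card_empty]
        omega
      · have hv0' := mem_al.1 hv0
        have htN : t < N := lt_of_le_of_lt hv0'.2 ((I v0).max' (hI v0)).isLt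
        refine (card_le_card fun v hv => ?_).trans (h4 ⟨t, htN⟩)
        have hv' := mem_al.1 hv
        refine h3 v ((I v).min' (hI v)) ⟨t, htN⟩ ((I v).max' (hI v)) hv'.1 hv'.2 ?_ ?_
        · exact (hmemI v _).1 ((I v).min'_mem (hI v))
        · exact (hmemI v _).1 ((I v).max'_mem (hI v))
  have hcut : ∀ A : Finset V, (G.cut A : ℝ) = E m A Aᶜ := by
    intro A
    unfold MGraph.cut E
    push_cast
    rfl
  have hk0 : (0 : ℝ) < k := by exact_mod_cast hk
  have hconn' : ∀ A : Finset V, A.Nonempty → A ≠ univ → (k : ℝ) ≤ E m A Aᶜ := by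
    intro A hA hA'
    rw [← hcut]
    exact_mod_cast hconn A hA hA'
  obtain ⟨T, hT, hTadj, hTthin⟩ := main hR hk0 hconn'
  have hthin : G.Thin T (16 * (w : ℝ) ^ 2 * ((w : ℝ) + 1) ^ 2 / k) := by
    intro A _ _
    rw [hcut]
    exact hTthin A
  refine ⟨T, ⟨hT, fun u v huv => ?_⟩, hthin, fun hkw A hA hA' => ?_⟩
  · have h5 : (0 : ℝ) < (G.mult u v : ℝ) := hTadj u v huv
    exact_mod_cast h5
  · refine (hthin A hA hA').trans (mul_le_mul_of_nonneg_right ?_ (Nat.cast_nonneg _))
    rw [div_le_div_iff₀ hk0 (by norm_num)]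
    have h5 : (32 * (w : ℝ) ^ 2 * ((w : ℝ) + 1) ^ 2) ≤ k := by exact_mod_cast hkw
    linarith

end Pool.Agent.Attic.MP_e3de44.BoundedPathwidth
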