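import Pool.Agent.H85.Thin.Glue

/-!
# Thin spanning trees in multigraphs without many disjoint sparse sets

A multigraph on `V` is given by its numbers of parallel edges. If it is `k`-edge connected and among
any `r + 1` pairwise disjoint nonempty vertex sets there is one whose cut contains at least a fraction
`ρ` of its volume, then it has a spanning tree of thinness at most `200 (r + 2)⁴ / (ρ⁴ k)`.
-/

namespace Pool.Agent.Attic.MP_e3de44.FewSparseSets

open Finset Pool.Agent.H85.Thin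

/-- A loopless multigraph on `V`: `mult u v` is the number of parallel edges joining `u` and `v`. -/
structure MGraph (V : Type) where
  mult : V → V → ℕ
  symm : ∀ u v, mult u v = mult v u
  loopless : ∀ v, mult v v = 0

variable {V : Type} [Fintype V] [DecidableEq V]

/-- the number of edges with exactly one end in `A` -/
def MGraph.cut (G : MGraph V) (A : Finset V) : ℕ := ∑ u ∈ A, ∑ v ∈ Aᶜ, G.mult u v

/-- the sum of the degrees of the vertices of `A` -/
def MGraph.vol (G : MGraph V) (A : Finset V) : ℕ := ∑ u ∈ A, ∑ v, G.mult u v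

/-- every cut has at least `k` edges -/
def MGraph.EdgeConnected (G : MGraph V) (k : ℕ) : Prop :=
  ∀ A : Finset V, A.Nonempty → A ≠ univ → k ≤ G.cut A

/-- `T` is a spanning tree of `G` (one of the parallel edges `uv` is in the tree when
`T.Adj u v`) -/
def MGraph.IsSpanningTree (G : MGraph V) (T : SimpleGraph V) : Prop :=
  T.IsTree ∧ ∀ u v, T.Adj u v → 0 < G.mult u v

/-- the number of edges of `T` with exactly one end in `A` -/
noncomputable def treeCut (T : SimpleGraph V) (A : Finset V) : ℕ :=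
  Set.ncard {p : V × V | p.1 ∈ A ∧ p.2 ∉ A ∧ T.Adj p.1 p.2}

/-- `T` is `α`-thin with respect to `G` -/
def MGraph.Thin (G : MGraph V) (T : SimpleGraph V) (α : ℝ) : Prop :=
  ∀ A : Finset V, A.Nonempty → A ≠ univ → (treeCut T A : ℝ) ≤ α * G.cut A

theorem result [Nonempty V] (G : MGraph V) (k r : ℕ) (ρ : ℝ) (hk : 0 < k) (hρ : 0 < ρ)
    (hρ1 : ρ ≤ 1) (hconn : G.EdgeConnected k)
    (hexp : ∀ S : Fin (r + 1) → Finset V, (∀ i, (S i).Nonempty) →
      (∀ i j, i ≠ j → Disjoint (S i) (S j)) → ∃ i, ρ * G.vol (S i) ≤ G.cut (S i)) :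
    ∃ T : SimpleGraph V, G.IsSpanningTree T ∧
      G.Thin T (200 * ((r : ℝ) + 2) ^ 4 / (ρ ^ 4 * k)) := by
  rcases subsingleton_or_nontrivial V with hsub | hnt
  · refine ⟨⊥, ⟨⟨?_, SimpleGraph.isAcyclic_bot⟩, fun u v h => absurd h (by simp)⟩, fun A hA hA' => ?_⟩
    · rw [SimpleGraph.connected_iff]
      exact ⟨fun u v => by rw [Subsingleton.elim u v], inferInstance⟩
    · exfalso
      apply hA'
      obtain ⟨a, ha⟩ := hA
      exact Finset.eq_univ_of_forall fun v => by rw [Subsingleton.elim v a]; exact ha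
  -- real weights
  let w : V → V → ℝ := fun u v => (G.mult u v : ℝ)
  have hw : ∀ u v, 0 ≤ w u v := fun u v => Nat.cast_nonneg _
  have hs : ∀ u v, w u v = w v u := fun u v => by simp only [w, G.symm u v]
  have hcut : ∀ A : Finset V, (G.cut A : ℝ) = cut w A := by
    intro A
    unfold MGraph.cut Pool.Agent.H85.Thin.cut E
    rw [Finset.compl_eq_univ_sdiff]
    push_cast
    rfl
  have hvol : ∀ A : Finset V, (G.vol A : ℝ) = E w A univ := by
    intro A
    unfold MGraph.vol E
    push_cast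
    rfl
  have hk0 : (0 : ℝ) < k := by exact_mod_cast hk
  have hconn' : ∀ A : Finset V, A.Nonempty → A ≠ univ → (k : ℝ) ≤ cut w A := by
    intro A h1 h2
    rw [← hcut]
    exact_mod_cast hconn A h1 h2
  have hdeg : ∀ v, (k : ℝ) ≤ E w {v} univ := by
    intro v
    refine (hconn' {v} (Finset.singleton_nonempty v) ?_).trans (cut_le_vol hw _)
    intro h
    obtain ⟨u, hu⟩ := exists_ne v
    have : u ∈ ({v} : Finset V) := by rw [h]; exact Finset.mem_univ _
    exact hu (Finset.mem_singleton.1 this)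
  have hr2 : (0 : ℝ) < (r : ℝ) + 2 := by positivity
  -- the critical number of sparse sets
  let P : ℕ → Prop := fun l => ∃ S : Fin l → Finset V, Fam w l (ρ * l / ((r : ℝ) + 2)) S
  have hP1 : P 1 := by
    refine ⟨fun _ => univ, fun _ => Finset.univ_nonempty, fun i j hij => ?_, fun _ => ?_⟩
    · exact absurd (Subsingleton.elim i j) hij
    · have h0 : cut w (univ : Finset V) = 0 := by
        unfold Pool.Agent.H85.Thin.cut
        rw [Finset.sdiff_self]
        exact E_empty_right _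
      rw [h0]
      exact mul_nonneg (by positivity) (E_nonneg hw _ _)
  have hPr : ¬ P (r + 1) := by
    rintro ⟨S, h1, h2, h3⟩
    obtain ⟨i, hi⟩ := hexp S h1 h2
    rw [hvol, hcut] at hi
    have h4 := h3 i
    have h5 := vol_pos hk0 hdeg (h1 i)
    have h6 : ρ * ((r + 1 : ℕ) : ℝ) / ((r : ℝ) + 2) < ρ := by
      rw [div_lt_iff₀ hr2]
      push_cast
      nlinarith
    have h7 : ρ * ((r + 1 : ℕ) : ℝ) / ((r : ℝ) + 2) * E w (S i) univ < ρ * E w (S i) univ :=
      mul_lt_mul_of_pos_right h6 h5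
    linarith
  have hex : ∃ l, 1 ≤ l ∧ l ≤ r ∧ P l ∧ ¬ P (l + 1) := by
    by_contra hcon
    push Not at hcon
    apply hPr
    have : ∀ n, 1 ≤ n → n ≤ r + 1 → P n := by
      intro n hn
      induction n, hn using Nat.le_induction with
      | base => exact fun _ => hP1
      | succ m hm ih =>
        intro h
        exact hcon m hm (by omega) (ih (by omega))
    exact this (r + 1) (by omega) le_rfl
  obtain ⟨l, hl1, hlr, hPl, hPl1⟩ := hex
  have hlR : (1 : ℝ) ≤ l := by exact_mod_cast hl1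
  have hlrR : (l : ℝ) ≤ r := by exact_mod_cast hlr
  set t : ℝ := ρ * l / ((r : ℝ) + 2) with ht
  set t' : ℝ := ρ * ((l + 1 : ℕ) : ℝ) / ((r : ℝ) + 2) with ht'
  set a : ℝ := ρ / ((r : ℝ) + 2) with ha
  have ha0 : 0 < a := by positivity
  have htt : t' - t = a := by
    rw [ht, ht', ha]
    push_cast
    ring
  have hφe : (t' - t) / 2 * a / 3 = ρ ^ 2 / (6 * ((r : ℝ) + 2) ^ 2) := by
    rw [htt, ha]
    field_simp
    norm_num
  obtain ⟨f, hne, hf⟩ := exists_partition hk0 hdeg hw hs (by omega : 0 < l)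
    (t := t) (t' := t') (a := a) (by positivity) (by linarith)
    (by
      rw [ht', div_le_one hr2]
      push_cast
      nlinarith)
    ha0
    (by
      rw [ht', ha]
      push_cast
      have : (l : ℝ) * (ρ / ((r : ℝ) + 2)) = ρ * l / ((r : ℝ) + 2) := by ring
      rw [this]
      refine div_le_div_of_nonneg_right ?_ hr2.le
      nlinarith) hPl hPl1
  rw [hφe] at hf
  set φ : ℝ := ρ ^ 2 / (6 * ((r : ℝ) + 2) ^ 2) with hφ
  have hφ0 : 0 < φ := by positivity
  have hφ1 : φ ≤ 1 := by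
    rw [hφ, div_le_one (by positivity)]
    nlinarith
  obtain ⟨T, hT1, hT2, hT3⟩ := exists_thin hk0 hφ0 hφ1 hdeg hw hs
    (fun A h1 h2 => lt_of_lt_of_le hk0 (hconn' A h1 h2)) f hne hf
  refine ⟨T, ⟨hT1, fun u v h => ?_⟩, fun A h1 h2 => ?_⟩
  · have := hT2 u v h
    simp only [w] at this
    exact_mod_cast this
  · refine (hT3 A).trans ?_
    rw [hcut]
    have h3 := hconn' A h1 h2
    have hc0 : 0 ≤ cut w A := by linarith
    have e1 : 5 / (φ ^ 2 * k) = 180 * ((r : ℝ) + 2) ^ 4 / (ρ ^ 4 * k) := by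
      rw [hφ]
      field_simp
      ring
    have h4 : 2 * (l : ℝ) ^ 2 ≤ 20 * ((r : ℝ) + 2) ^ 4 / (ρ ^ 4 * k) * cut w A := by
      have h5 : 20 * ((r : ℝ) + 2) ^ 4 / (ρ ^ 4 * k) * k ≤
          20 * ((r : ℝ) + 2) ^ 4 / (ρ ^ 4 * k) * cut w A :=
        mul_le_mul_of_nonneg_left h3 (by positivity)
      have h6 : 20 * ((r : ℝ) + 2) ^ 4 / (ρ ^ 4 * k) * k = 20 * ((r : ℝ) + 2) ^ 4 / ρ ^ 4 := by
        field_simp
      have h7 : 20 * ((r : ℝ) + 2) ^ 4 ≤ 20 * ((r : ℝ) + 2) ^ 4 / ρ ^ 4 := by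
        rw [le_div_iff₀ (by positivity)]
        have : ρ ^ 4 ≤ 1 := pow_le_one₀ hρ.le hρ1
        have h8 : 0 ≤ 20 * ((r : ℝ) + 2) ^ 4 := by positivity
        nlinarith
      have h9 : 2 * (l : ℝ) ^ 2 ≤ 20 * ((r : ℝ) + 2) ^ 4 := by
        have h10 : (l : ℝ) ^ 2 ≤ ((r : ℝ) + 2) ^ 2 := by
          apply pow_le_pow_left₀ (by linarith)
          linarith
        have h11 : ((r : ℝ) + 2) ^ 2 ≤ ((r : ℝ) + 2) ^ 4 :=
          pow_le_pow_right₀ (by linarith) (by norm_num)
        nlinarith [sq_nonneg (l : ℝ)]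
      linarith
    rw [e1]
    have e2 : 200 * ((r : ℝ) + 2) ^ 4 / (ρ ^ 4 * k) * cut w A =
        180 * ((r : ℝ) + 2) ^ 4 / (ρ ^ 4 * k) * cut w A +
          20 * ((r : ℝ) + 2) ^ 4 / (ρ ^ 4 * k) * cut w A := by ring
    rw [e2]
    linarith

end Pool.Agent.Attic.MP_e3de44.FewSparseSets
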